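import Pool.Agent.NTW.StmtsB

/-! NTW row BLA: the vertex `v' k` is below the flat of `v`. -/

set_option autoImplicit false

open Matrix Filter Topology

namespace Pool.Agent.NTW.H86

open Pool.Agent.PFS Pool.Agent.PFJ Pool.Agent.NTS Pool.Agent.NTW

variable {n K : ℕ}

theorem xt_mem {C : Set (V n)} {w : Fin K → V n} (hw : PES C w) (t : Fin K → ℝ) : xt w t ∈ C :=
  hw.pos _ fun i => Real.exp_pos (t i)

theorem one_le_of_near {C : Set (V n)} (hC : PCone C) {τ : Fin K → Fin K} {M : ℝ}
    {v v' : Fin K → V n} {t : Fin K → ℝ} {x : Fin K → V n} (hv : PES C v)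
    (h : Nr C τ M v v' t x) : 1 ≤ M := by
  by_contra hlt
  have hp := xt_mem hv t
  have h1 : (M - 1) • xt v t ∈ closure C := by
    have h2 := hC.cl_add h.lo h.up
    have h3 : (∑ i, x i) - xt v t + (M • xt v t - ∑ i, x i) = (M - 1) • xt v t := by
      rw [sub_smul, one_smul]
      abel
    rwa [h3] at h2
  have h2 : (1 - M) • xt v t ∈ closure C :=
    hC.cl_smul (subset_closure hp) (by linarith)
  have h3 : -((M - 1) • xt v t) ∈ closure C := by
    rw [← neg_smul, neg_sub]
    exact h2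
  have h4 := hC.salient _ h1 h3
  rcases smul_eq_zero.1 h4 with h5 | h5
  · linarith
  · exact hC.ne_zero hp h5

theorem bla (hD : DcpStmt) : BlaStmt := by
  classical
  intro n C Γ K c τ hdom v v' ν M k hk hτ
  have hC : PCone C := hdom.toCC.toPCone
  obtain ⟨-, -, -, d4, -, -, -⟩ := hD n C Γ K c τ hdom v' hk.tv'
  have hvcl : ∀ i, v' i ∈ closure C := fun i => PES.cl hk.tv'.pes.1 i
  -- `M ≥ 1`
  have hM : 1 ≤ M := by
    have h1 : 0 < ∑ i, ν i * ν i := by
      have h2 : ∃ i, ν i ≠ 0 := by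
        by_contra hcon
        push Not at hcon
        exact hk.nz (funext hcon)
      obtain ⟨i, hi⟩ := h2
      exact Finset.sum_pos' (fun j _ => mul_self_nonneg (ν j))
        ⟨i, Finset.mem_univ i, mul_self_pos.2 hi⟩
    obtain ⟨x, hx, -⟩ := hk.near ν h1
    exact one_le_of_near hC hk.tv.pes.1 hx
  refine ⟨M * M, by positivity, fun u hu => ?_⟩
  have hlog : 0 < Real.log 2 := Real.log_pos (by norm_num)
  set t : Fin K → ℝ := fun i => (u i : ℝ) * Real.log 2 with ht
  have hexp : ∀ i, Real.exp (t i) = (2 : ℝ) ^ (u i) := by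
    intro i
    rw [ht]
    show Real.exp ((u i : ℝ) * Real.log 2) = _
    rw [mul_comm, Real.exp_mul, Real.exp_log (by norm_num : (0 : ℝ) < 2), Real.rpow_intCast]
  have hpt : xt v t = pt v u := by
    unfold xt pt
    exact Finset.sum_congr rfl fun i _ => by rw [hexp]
  have hpos : 0 < ∑ i, ν i * t i := by
    have h1 : ∑ i, ν i * t i = (∑ i, ν i * (u i : ℝ)) * Real.log 2 := by
      rw [Finset.sum_mul]
      exact Finset.sum_congr rfl fun i _ => by rw [ht]; ring
    rw [h1]
    exact mul_pos hu hlog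
  obtain ⟨x, hx, hlb⟩ := hk.near t hpos
  obtain ⟨b, hb, hb1, -⟩ := hlb k hτ
  have hsum : ∑ i, x i ∈ closure C :=
    hC.cl_of_le (subset_closure (xt_mem hk.tv.pes.1 t)) hx.lo
  have hcomp := d4 x hx.mem hsum
  -- the other terms
  have hoth : (2 : ℝ) • (∑ i, x i - x k) ∈ closure C := by
    have h1 : ∑ i ∈ Finset.univ.erase k, (x i + x (τ i)) ∈ closure C :=
      hC.cl_sum fun i _ => hcomp i
    have h2 : ∑ i ∈ Finset.univ.erase k, x i = ∑ i, x i - x k := by
      rw [← Finset.sum_erase_add Finset.univ x (Finset.mem_univ k)]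
      abel
    have h3 : ∑ i, x (τ i) = ∑ i, x i :=
      Equiv.sum_comp (Function.Involutive.toPerm τ hdom.inv) x
    have h4 : ∑ i ∈ Finset.univ.erase k, x (τ i) = ∑ i, x i - x k := by
      have h5 := Finset.sum_erase_add Finset.univ (fun i => x (τ i)) (Finset.mem_univ k)
      simp only [hτ] at h5
      rw [h3] at h5
      rw [← h5]
      abel
    rw [Finset.sum_add_distrib, h2, h4] at h1
    rw [two_smul]
    exact h1
  have hoth' : ∑ i, x i - x k ∈ closure C := (hC.cl_smul_iff (by norm_num)).1 hoth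
  -- conclusion
  have e1 : M • (∑ i, x i - x k) ∈ closure C := hC.cl_smul hoth' (by linarith)
  have e2 : M • (M • xt v t - ∑ i, x i) ∈ closure C := hC.cl_smul hx.up (by linarith)
  have e3 : (M * b - (2 : ℝ) ^ (u k)) • v' k ∈ closure C := by
    refine hC.cl_smul (hvcl k) ?_
    rw [← hexp]
    linarith
  have e4 := hC.cl_add (hC.cl_add e1 e2) e3
  have e5 : M • (∑ i, x i - x k) + M • (M • xt v t - ∑ i, x i) +
      (M * b - (2 : ℝ) ^ (u k)) • v' k = (M * M) • pt v u - (2 : ℝ) ^ (u k) • v' k := by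
    rw [hb, hpt]
    module
  rw [e5] at e4
  exact e4

end Pool.Agent.NTW.H86
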