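import Pool.Agent.NTW.StmtsD

/-! NTW row CMW: comparison of the two flats. -/

set_option autoImplicit false

open Matrix Filter Topology

namespace Pool.Agent.NTW.H86

open Pool.Agent.PFS Pool.Agent.PFJ Pool.Agent.NTS Pool.Agent.NTW

theorem cmw (hD : DcpStmt) (hL : LbwStmt) : CmwStmt := by
  classical
  intro n C Γ K c τ hdom w w' hw hw' htn t ht hnear
  have hC : PCone C := hdom.toCC.toPCone
  obtain ⟨-, -, -, -, -, d6, -⟩ := hD n C Γ K c τ hdom w' hw'
  obtain ⟨q, hq, h1, h2⟩ := hnear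
  obtain ⟨x, hx, hxq⟩ := (d6 q).1 hq
  subst hxq
  have hnr : Nr C τ 2 w w' t x := ⟨hx, h1, h2⟩
  obtain ⟨l1, l2⟩ := hL n C Γ K c τ hdom w w' hw hw' htn t 2 x hnr
  have key : ∀ i, (2 : ℝ) • (x i + x (τ i)) - Real.exp (t i) • (w' i + w' (τ i)) ∈
      closure C := by
    intro i
    by_cases h : τ i = i
    · obtain ⟨b, hb, hb1, -⟩ := l1 i h
      rw [h, hb]
      have h3 : (2 : ℝ) • (b • w' i + b • w' i) - Real.exp (t i) • (w' i + w' i) =
          (4 * b - 2 * Real.exp (t i)) • w' i := by module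
      rw [h3]
      exact hC.cl_smul (PES.cl hw'.pes.1 i) (by linarith)
    · exact l2 i h (ht i)
  have hsum : ∑ i, ((2 : ℝ) • (x i + x (τ i)) - Real.exp (t i) • (w' i + w' (τ i))) ∈
      closure C := hC.cl_sum fun i _ => key i
  have e1 : ∑ i, x (τ i) = ∑ i, x i :=
    Equiv.sum_comp (Function.Involutive.toPerm τ hdom.inv) x
  have e2 : ∑ i, Real.exp (t i) • w' (τ i) = xt w' t := by
    have h4 := Equiv.sum_comp (Function.Involutive.toPerm τ hdom.inv)
      (fun j => Real.exp (t j) • w' j)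
    unfold xt
    rw [← h4]
    refine Finset.sum_congr rfl fun i _ => ?_
    show Real.exp (t i) • w' (τ i) = Real.exp (t (τ i)) • w' (τ i)
    rw [ht i]
  have e3 : ∑ i, ((2 : ℝ) • (x i + x (τ i)) - Real.exp (t i) • (w' i + w' (τ i))) =
      (2 : ℝ) • ((2 : ℝ) • (∑ i, x i) - xt w' t) := by
    rw [Finset.sum_sub_distrib, ← Finset.smul_sum, Finset.sum_add_distrib, e1]
    have h4 : ∑ i, Real.exp (t i) • (w' i + w' (τ i)) = xt w' t + xt w' t := by
      simp only [smul_add]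
      rw [Finset.sum_add_distrib, e2]
      rfl
    rw [h4]
    module
  rw [e3] at hsum
  have h5 : (2 : ℝ) • (∑ i, x i) - xt w' t ∈ closure C :=
    (hC.cl_smul_iff (by norm_num)).1 hsum
  have h6 : (2 : ℝ) • ((2 : ℝ) • xt w t - ∑ i, x i) ∈ closure C :=
    hC.cl_smul h2 (by norm_num)
  have h7 := hC.cl_add h6 h5
  have h8 : (2 : ℝ) • ((2 : ℝ) • xt w t - ∑ i, x i) + ((2 : ℝ) • (∑ i, x i) - xt w' t) =
      (4 : ℝ) • xt w t - xt w' t := by module
  rw [h8] at h7
  exact h7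

end Pool.Agent.NTW.H86
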